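import Pool.Agent.helper41.G5.SpecG

/-!
# Row d2:gNUM (MP_5823cb_al): numbers
-/

set_option autoImplicit false

open Filter Topology MeasureTheory

namespace Pool.Agent.helper90.DH

open Pool.Agent.helper64.D2

theorem gNUM_ge (s0 : ℕ) : ∀ t : ℕ, s0 ≤ sj s0 t := by
  intro t
  induction t with
  | zero => exact le_rfl
  | succ t ih =>
    have : sj s0 (t + 1) = sj s0 t + sj s0 t / 4 := rfl
    rw [this]
    omega

theorem gNUM : gNUM_stmt := by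
  intro w0 R
  refine ⟨4 * (3 * w0 * 2 ^ w0) + 8 * w0 + R + 40, ?_⟩
  intro ρ hρ
  have hR : R ≤ ρ := by
    have h0 : 0 ≤ 4 * (3 * w0 * 2 ^ w0) := Nat.zero_le _
    omega
  refine ⟨hR, ?_⟩
  intro t φ _
  have hD : 4 * (3 * w0 * 2 ^ w0) + 8 * w0 + R + 40 * ρ ≤ ρ ^ 2 := by
    generalize 3 * w0 * 2 ^ w0 = A at hρ ⊢
    have h1 : 1 ≤ ρ := by omega
    have h2 : (4 * A + 8 * w0 + R + 40) * ρ ≤ ρ * ρ := Nat.mul_le_mul_right ρ hρ
    have h3 : (4 * A + 8 * w0 + R) * 1 ≤ (4 * A + 8 * w0 + R) * ρ := Nat.mul_le_mul_left _ h1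
    nlinarith
  have hs : ρ ^ 2 ≤ sj (ρ ^ 2) t := gNUM_ge (ρ ^ 2) t
  have hs1 : sj (ρ ^ 2) (t + 1) = sj (ρ ^ 2) t + sj (ρ ^ 2) t / 4 := rfl
  have h0 : t = 0 → sj (ρ ^ 2) t = ρ ^ 2 := by
    rintro rfl
    rfl
  rw [hs1]
  unfold bu amp
  generalize sj (ρ ^ 2) t = s at *
  generalize ρ ^ 2 = D at *
  generalize 3 * w0 * 2 ^ w0 = A at *
  generalize 3 * w0 * φ = B at *
  by_cases ht : t = 0
  · rw [if_pos ht, if_pos ht]
    have := h0 ht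
    omega
  · rw [if_neg ht, if_neg ht]
    omega

end Pool.Agent.helper90.DH
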